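import Pool.Agent.H299R3.QPSurf

/-!
Quasi-proper maps of two-sheeted coverings of the disc: for every surface `X` as in the problem
there is a quasi-proper map which is not a finite or infinite product of members of the class.
-/

set_option autoImplicit false

open scoped Manifold
open Pool.Agent.H299R3.QP

namespace Pool.Agent.Results.MP_fa6e01_an.NotProducts

/-- For every connected Riemann surface `X` with data `φ, σ, B, ϑ` as in the problem (a proper
holomorphic `φ : X → 𝔻` with exactly two zeros counted with multiplicity and infinitely many
branch points, summable branch values, sheet interchange `σ`, Blaschke product `B` with simple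
zeros exactly at the branch values, `ϑ ^ 2 = B ∘ φ`, `ϑ ∘ σ = -ϑ`), some quasi-proper map of `X`
is not a finite or infinite convergent product of members of the class of the problem. -/
theorem result : ∀ (X : Type) [TopologicalSpace X] [T2Space X] [ConnectedSpace X]
    [ChartedSpace ℂ X] [IsManifold 𝓘(ℂ) ⊤ X] (φ : X → ℂ) (σ : X → X) (B : ℂ → ℂ) (ϑ : X → ℂ),
    Setup φ σ B ϑ → ∃ θ : X → ℂ, QuasiProper θ ∧ ¬ IsProductOfL φ B ϑ θ := by
  intro X _ _ _ _ _ φ σ B ϑ h
  exact main h

end Pool.Agent.Results.MP_fa6e01_an.NotProducts
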